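import Mathlib

/-!
The definitions used in the statement of `MP_2482e1_an/CoefficientRegion.lean`.
-/

set_option autoImplicit false

namespace Pool.Agent.Y952.Cara

open Metric Set

/-- The Caratheodory family on the unit ball of a complex inner product space: holomorphic maps `h`
with `h 0 = 0`, `Dh(0) = I` and `Re ⟨h z, z⟩ > 0` off the origin. -/
def caraFamily (E : Type*) [NormedAddCommGroup E] [InnerProductSpace ℂ E] : Set (E → E) :=
  {h | DifferentiableOn ℂ h (ball 0 1) ∧ h 0 = 0 ∧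
    fderiv ℂ h 0 = ContinuousLinearMap.id ℂ E ∧
    ∀ z ∈ ball (0 : E) 1, z ≠ 0 → 0 < (inner ℂ z (h z)).re}

/-- The homogeneous part of degree `m` of `h` at `z`: the `m`-th Taylor coefficient at `0` of
`t ↦ h (t z)`. -/
noncomputable def homPart {E : Type*} [NormedAddCommGroup E] [InnerProductSpace ℂ E] (m : ℕ)
    (h : E → E) (z : E) : E :=
  ((m.factorial : ℂ)⁻¹) • iteratedDeriv m (fun t : ℂ => h (t • z)) 0

/-- `‖P_m‖`, the supremum of `‖P_m(z)‖` over the unit sphere. -/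
noncomputable def homNorm {E : Type*} [NormedAddCommGroup E] [InnerProductSpace ℂ E] (m : ℕ)
    (h : E → E) : ℝ :=
  sSup ((fun z => ‖homPart m h z‖) '' sphere (0 : E) 1)

/-- The sharp constant `C = √((m+1)^(m+1) / m^m)`. -/
noncomputable def sharpC (m : ℕ) : ℝ := Real.sqrt (((m : ℝ) + 1) ^ (m + 1) / (m : ℝ) ^ m)

/-- `D = m + 1 + (m - 3) g^2`. -/
noncomputable def dd (m : ℕ) (g : ℝ) : ℝ := m + 1 + (m - 3) * g ^ 2

/-- `S = √((1 - g^2) (m + (m - 2) g^2))`. -/
noncomputable def ss (m : ℕ) (g : ℝ) : ℝ := Real.sqrt ((1 - g ^ 2) * (m + (m - 2) * g ^ 2))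

/-- `ρ = √((m - g^2) (1 + g^2) / D)`. -/
noncomputable def rad (m : ℕ) (g : ℝ) : ℝ := Real.sqrt ((m - g ^ 2) * (1 + g ^ 2) / dd m g)

/-- The bound `A(g) = g (1 - g^2 + 2 ρ^2) / ρ^(m+1)` for the component of `P_m(z)` along `z`. -/
noncomputable def bdA (m : ℕ) (g : ℝ) : ℝ := g * (1 - g ^ 2 + 2 * rad m g ^ 2) / rad m g ^ (m + 1)

/-- The bound `B(g) = S / ρ^(m+1)` for the component of `P_m(z)` orthogonal to `z`. -/
noncomputable def bdB (m : ℕ) (g : ℝ) : ℝ := ss m g / rad m g ^ (m + 1)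

end Pool.Agent.Y952.Cara
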