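import Mathlib
import Pool.Agent.Helper540.Cara

/-!
The Caratheodory family in a complex Hilbert space: the averaged inequality for arbitrary phases.
-/

set_option autoImplicit false

namespace Pool.Agent.Y952.Cara

open Metric Set Filter Topology Pool.Agent.Helper540

variable {E : Type*} [NormedAddCommGroup E] [InnerProductSpace ℂ E]

theorem slice_diff {h : E → E} (hd : DifferentiableOn ℂ h (ball 0 1)) {u : E} (hu : ‖u‖ ≤ 1) :
    DifferentiableOn ℂ (fun t : ℂ => h (t • u)) (ball 0 1) := by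
  intro ζ hζ
  have hζ' : ‖ζ‖ < 1 := by simpa using hζ
  have h2 : ζ • u ∈ ball (0 : E) 1 := by
    rw [mem_ball_zero_iff, norm_smul]
    nlinarith [norm_nonneg ζ, norm_nonneg u]
  have h3 : DifferentiableAt ℂ (fun ζ : ℂ => ζ • u) ζ := by fun_prop
  exact ((hd.differentiableAt (isOpen_ball.mem_nhds h2)).comp ζ h3).differentiableWithinAt

variable [CompleteSpace E]

/-- The inequality `x y^m |⟨w, P_m(u)⟩| ≤ 1 + ρ^2` for unit vectors `u`, `w` with
`x y |⟨u, w⟩| = ρ < 1` and `x^2 + y^2 = 1 + ρ^2`. -/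
theorem key_abs {h : E → E} (hd : DifferentiableOn ℂ h (ball 0 1)) (h0 : h 0 = 0)
    (h1 : fderiv ℂ h 0 = ContinuousLinearMap.id ℂ E)
    (hpos : ∀ z ∈ ball (0 : E) 1, 0 ≤ (inner ℂ z (h z)).re) {m : ℕ} (hm : 2 ≤ m) {u w : E}
    (hu : ‖u‖ = 1) (hw : ‖w‖ = 1) {x y ρ : ℝ}
    (hy : 0 ≤ y) (hy1 : y ≤ 1) (hρ : 0 ≤ ρ) (hρ1 : ρ < 1)
    (e1 : x ^ 2 + y ^ 2 = 1 + ρ ^ 2) (e2 : x * y * ‖inner ℂ u w‖ = ρ) :
    x * y ^ m * ‖inner ℂ w (tc m (fun t : ℂ => h (t • u)))‖ ≤ 1 + ρ ^ 2 := by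
  set P : E := tc m (fun t : ℂ => h (t • u)) with hP
  set q : ℂ := inner ℂ w P with hq
  rcases eq_or_ne q 0 with hq0 | hq0
  · rw [hq0, norm_zero, mul_zero]; positivity
  set c₀ : ℂ := inner ℂ u w with hc₀
  obtain ⟨κ, hκ1, hκ⟩ : ∃ κ : ℂ, ‖κ‖ = 1 ∧ κ * c₀ = (‖c₀‖ : ℂ) := by
    rcases eq_or_ne c₀ 0 with h2 | h2
    · exact ⟨1, by simp, by simp [h2]⟩
    · refine ⟨(‖c₀‖ : ℂ) / c₀, ?_, by rw [div_mul_cancel₀ _ h2]⟩
      rw [norm_div, Complex.norm_real, norm_norm, div_self]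
      exact (norm_pos_iff.2 h2).ne'
  have hκ0 : κ ≠ 0 := by
    intro h2; rw [h2, norm_zero] at hκ1; norm_num at hκ1
  have hκc : (starRingEnd ℂ) κ ≠ 0 := by
    intro h2; exact hκ0 (by simpa using h2)
  obtain ⟨l, hl⟩ := IsAlgClosed.exists_pow_nat_eq ((‖q‖ : ℂ) / ((starRingEnd ℂ) κ * q))
    (by omega : 0 < m - 1)
  have hl1 : ‖l‖ = 1 := by
    have h4 : ‖l‖ ^ (m - 1) = 1 := by
      rw [← norm_pow, hl, norm_div, norm_mul, Complex.norm_conj, hκ1, one_mul, Complex.norm_real,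
        norm_norm, div_self]
      exact (norm_pos_iff.2 hq0).ne'
    exact (pow_eq_one_iff_of_nonneg (norm_nonneg _) (by omega)).1 h4
  have hl2 : l ^ (m - 1) * ((starRingEnd ℂ) κ * q) = (‖q‖ : ℂ) := by
    rw [hl, div_mul_cancel₀ _ (mul_ne_zero hκc hq0)]
  have hll : (starRingEnd ℂ) l * l = 1 := by
    rw [mul_comm, Complex.mul_conj, Complex.normSq_eq_norm_sq, hl1]; simp
  set u' : E := l • u with hu'
  have hu'n : ‖u'‖ = 1 := by rw [hu', norm_smul, hl1, hu, one_mul]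
  set w' : E := (l * κ) • w with hw'
  have hwn : ‖w'‖ = 1 := by rw [hw', norm_smul, norm_mul, hl1, hκ1, hw]; norm_num
  set c : ℝ := ‖c₀‖ with hc
  have hu'w : inner ℂ u' w' = (c : ℂ) := by
    rw [hu', hw', inner_smul_left, inner_smul_right, ← hc₀, ← hκ]
    calc (starRingEnd ℂ) l * (l * κ * c₀) = ((starRingEnd ℂ) l * l) * (κ * c₀) := by ring
      _ = κ * c₀ := by rw [hll, one_mul]
  -- dilations of `h`
  have hr : ∀ r : ℝ, 0 < r → r < 1 → x * y ^ m * (r ^ (m - 1) * ‖q‖) ≤ 1 + ρ ^ 2 := by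
    intro r hr0 hr1
    have hrc : (r : ℂ) ≠ 0 := by exact_mod_cast hr0.ne'
    set g : E → E := fun z => ((r : ℂ)⁻¹) • h ((r : ℂ) • z) with hg
    have hmap : ∀ z ∈ ball (0 : E) (r⁻¹), (r : ℂ) • z ∈ ball (0 : E) 1 := by
      intro z hz
      rw [mem_ball_zero_iff] at *
      rw [norm_smul, Complex.norm_real, Real.norm_of_nonneg hr0.le]
      calc r * ‖z‖ < r * r⁻¹ := by gcongr
        _ = 1 := mul_inv_cancel₀ hr0.ne'
    have hgd : DifferentiableOn ℂ g (ball 0 (r⁻¹)) := by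
      intro z hz
      have h2 : DifferentiableAt ℂ h ((r : ℂ) • z) :=
        hd.differentiableAt (isOpen_ball.mem_nhds (hmap z hz))
      have h3 : DifferentiableAt ℂ (fun z : E => (r : ℂ) • z) z := by fun_prop
      exact ((h2.comp z h3).const_smul ((r : ℂ)⁻¹)).differentiableWithinAt
    have hg0 : g 0 = 0 := by simp [hg, h0]
    have hg1 : fderiv ℂ g 0 = ContinuousLinearMap.id ℂ E := by
      have h2 : HasFDerivAt h (ContinuousLinearMap.id ℂ E) ((r : ℂ) • (0 : E)) := by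
        rw [smul_zero, ← h1]
        exact (hd.differentiableAt (ball_mem_nhds _ one_pos)).hasFDerivAt
      have h3 : HasFDerivAt (fun z : E => (r : ℂ) • z) ((r : ℂ) • ContinuousLinearMap.id ℂ E) 0 :=
        (hasFDerivAt_id (0 : E)).const_smul (r : ℂ)
      have h4 := (h2.comp (0 : E) h3).const_smul ((r : ℂ)⁻¹)
      rw [show g = (r : ℂ)⁻¹ • (h ∘ fun z : E => (r : ℂ) • z) from rfl, h4.fderiv]
      ext z
      simp only [Complex.coe_smul, FunLike.coe_smul, Pi.smul_apply,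
        ContinuousLinearMap.comp_apply, ContinuousLinearMap.id_apply]
      have e6 : (r : ℂ)⁻¹ • (r : ℂ) • z = z := by
        rw [smul_smul, inv_mul_cancel₀ hrc, one_smul]
      simpa using e6
    have hgpos : ∀ z, ‖z‖ ≤ 1 → 0 ≤ (inner ℂ z (g z)).re := by
      intro z hz
      have hzb : z ∈ ball (0 : E) (r⁻¹) := by
        rw [mem_ball_zero_iff]
        exact hz.trans_lt ((one_lt_inv₀ hr0).2 hr1)
      have h2 := hpos _ (hmap z hzb)
      have h3 : inner ℂ z (g z) = ((r⁻¹ * r⁻¹ : ℝ) : ℂ) * inner ℂ ((r : ℂ) • z) (h ((r : ℂ) • z)) := by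
        rw [hg, inner_smul_right, inner_smul_left, Complex.conj_ofReal]
        push_cast
        field_simp
      rw [h3, Complex.re_ofReal_mul]
      positivity
    have key := key_ineq (R₁ := r⁻¹) ((one_lt_inv₀ hr0).2 hr1) hgd hg0 hg1 hgpos hm hu'n hwn hu'w
      hy hy1 hρ hρ1 e1 e2
    have hs1 := slice_diff hd hu.le
    have htc : tc m (fun t : ℂ => g (t • u')) = ((r : ℂ)⁻¹ * (r * l) ^ m) • P := by
      have h5 : (fun t : ℂ => g (t • u')) =
          fun t : ℂ => ((r : ℂ)⁻¹) • (fun s : ℂ => h (s • u)) (t • ((r : ℂ) * l)) := by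
        ext1 t
        simp only [hg, hu', smul_smul, smul_eq_mul]
        congr 3
        ring
      have h6 := tc_comp_smul one_pos hs1 m ((r : ℂ) * l)
      have h7 : DifferentiableOn ℂ (fun t : ℂ => (fun s : ℂ => h (s • u)) (t • ((r : ℂ) * l)))
          (ball 0 1) := by
        intro ζ hζ
        have hζ' : ‖ζ‖ < 1 := by simpa using hζ
        have h2 : ζ • ((r : ℂ) * l) ∈ ball (0 : ℂ) 1 := by
          rw [mem_ball_zero_iff, norm_smul, norm_mul, hl1, mul_one, Complex.norm_real,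
            Real.norm_of_nonneg hr0.le]
          nlinarith [norm_nonneg ζ]
        have h3 : DifferentiableAt ℂ (fun ζ : ℂ => ζ • ((r : ℂ) * l)) ζ := by fun_prop
        exact ((hs1.differentiableAt (isOpen_ball.mem_nhds h2)).comp ζ h3).differentiableWithinAt
      have h8 := tc_clm ((r : ℂ)⁻¹ • ContinuousLinearMap.id ℂ E) m (contDiffAt_of_ball one_pos h7 m)
      rw [h5]
      simp only [FunLike.coe_smul, Pi.smul_apply, ContinuousLinearMap.id_apply] at h8
      rw [h8, h6, smul_smul]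
    rw [htc, inner_smul_right] at key
    have hinner : inner ℂ w' P = (starRingEnd ℂ) (l * κ) * q := by
      rw [hw', inner_smul_left]
    have h9 : (r : ℂ)⁻¹ * (r * l) ^ m * inner ℂ w' P = ((r ^ (m - 1) * ‖q‖ : ℝ) : ℂ) := by
      rw [hinner, map_mul, mul_pow]
      have h11 : (r : ℂ) ^ m = r * r ^ (m - 1) := by rw [← pow_succ']; congr 1; omega
      have h12 : l ^ m = l * l ^ (m - 1) := by rw [← pow_succ']; congr 1; omega
      calc (r : ℂ)⁻¹ * (r ^ m * l ^ m) * ((starRingEnd ℂ) l * (starRingEnd ℂ) κ * q)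
          = (r : ℂ)⁻¹ * r ^ m * ((starRingEnd ℂ) l * l) *
            (l ^ (m - 1) * ((starRingEnd ℂ) κ * q)) := by rw [h12]; ring
        _ = ((r ^ (m - 1) * ‖q‖ : ℝ) : ℂ) := by
          rw [hll, hl2, h11]; push_cast; field_simp
    rw [h9, Complex.ofReal_re] at key
    exact key
  have hl2 : Tendsto (fun r : ℝ => x * y ^ m * (r ^ (m - 1) * ‖q‖)) (𝓝[<] 1)
      (𝓝 (x * y ^ m * ((1 : ℝ) ^ (m - 1) * ‖q‖))) := by
    apply Tendsto.mono_left _ nhdsWithin_le_nhds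
    apply Continuous.tendsto
    fun_prop
  rw [one_pow, one_mul] at hl2
  refine le_of_tendsto hl2 ?_
  filter_upwards [Ioo_mem_nhdsLT (zero_lt_one (α := ℝ))] with r hr'
  exact hr r hr'.1 hr'.2

end Pool.Agent.Y952.Cara
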