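import Mathlib
import Pool.Agent.Y952.CaraKey
import Pool.Agent.Y952.CaraDefs

/-!
An explicit family of maps in the Caratheodory family of a complex Hilbert space.
-/

set_option autoImplicit false

namespace Pool.Agent.Y952.Cara

open Metric Set Filter Topology Pool.Agent.Helper540

variable {E : Type*} [NormedAddCommGroup E] [InnerProductSpace ℂ E]

theorem homPart_eq (m : ℕ) (h : E → E) (z : E) : homPart m h z = tc m (fun t : ℂ => h (t • z)) :=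
  rfl

theorem core {N : ℕ} (hN : 1 ≤ N) {τ M D : ℝ} (hτ0 : 0 ≤ τ) (hτ1 : τ ≤ 1)
    (hM : M = (N : ℝ) + 1 + (N - 1) * τ) (hD : D = M + 1 - τ) {σ : ℝ} (hσ : 0 ≤ σ) :
    (1 - τ) * (σ ^ (N + 1) * (D - M * σ)) ≤ (1 - τ * σ ^ N) ^ 2 := by
  have hN' : (1 : ℝ) ≤ N := by exact_mod_cast hN
  have hM0 : 0 ≤ M := by rw [hM]; nlinarith
  rcases hσ.eq_or_lt with h0 | h0
  · rw [← h0]
    have : N ≠ 0 := by omega
    simp [this]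
  have hX : 0 < σ ^ N := by positivity
  have hb1 : 1 + (N : ℝ) * (σ - 1) ≤ σ ^ N := by
    have := one_add_mul_le_pow (a := σ - 1) (by linarith) N
    simpa using this
  have hb2 : σ ^ N * (1 - N * (σ - 1)) ≤ 1 := by
    have h2 := one_add_mul_le_pow (a := σ⁻¹ - 1) (by have := inv_pos.2 h0; linarith) N
    have h3 : (1 : ℝ) + (σ⁻¹ - 1) = σ⁻¹ := by ring
    rw [h3, inv_pow] at h2
    have h4 : 1 - (N : ℝ) * (σ - 1) ≤ 1 + N * (σ⁻¹ - 1) := by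
      have h5 : 0 ≤ (σ - 1) ^ 2 * σ⁻¹ := by positivity
      have h6 : (σ - 1) ^ 2 * σ⁻¹ = σ + σ⁻¹ - 2 := by field_simp; ring
      rw [h6] at h5
      nlinarith
    calc σ ^ N * (1 - N * (σ - 1)) ≤ σ ^ N * (σ ^ N)⁻¹ := by
          apply mul_le_mul_of_nonneg_left (h4.trans h2) hX.le
      _ = 1 := mul_inv_cancel₀ hX.ne'
  have key : (1 - τ * σ ^ N) ^ 2 - (1 - τ) * (σ ^ (N + 1) * (D - M * σ)) =
      (1 - σ ^ N * (1 - N * (σ - 1))) + τ ^ 2 * σ ^ N * (σ ^ N - (1 + N * (σ - 1))) +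
        σ ^ N * ((1 - τ) * M * (σ - 1) ^ 2) := by
    rw [hD, hM, pow_succ]
    ring
  have h7 : 0 ≤ τ ^ 2 * σ ^ N * (σ ^ N - (1 + N * (σ - 1))) :=
    mul_nonneg (by positivity) (by linarith)
  have h8 : 0 ≤ σ ^ N * ((1 - τ) * M * (σ - 1) ^ 2) :=
    mul_nonneg hX.le (mul_nonneg (mul_nonneg (by linarith) hM0) (sq_nonneg _))
  linarith

theorem real_main {N : ℕ} (hN : 1 ≤ N) {R X t c B : ℝ} (hR0 : 0 < R) (hR1 : R < 1) (hX : 0 ≤ X)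
    (hXR : X ≤ R) (ht : 0 ≤ t) (hbes : t ^ 2 ≤ R ^ 2 - X ^ 2) (hc : 0 ≤ c) (hc1 : c ≤ 1)
    (hB : 0 ≤ B)
    (hcB : ∀ s : ℝ, 0 ≤ s → s ≤ 1 → B ^ 2 * (s ^ (N + 1) * (1 - s)) ≤ (1 - c ^ 2 * s ^ N) ^ 2) :
    B * X ^ (N + 1) * t < R ^ 2 * (1 - (c * X ^ N) ^ 2) := by
  have hR2 : 0 < R ^ 2 := by positivity
  obtain ⟨s, hs⟩ : ∃ s : ℝ, s = X ^ 2 / R ^ 2 := ⟨_, rfl⟩
  have hs0 : 0 ≤ s := by rw [hs]; positivity
  have hs1 : s ≤ 1 := by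
    rw [hs, div_le_one hR2]
    exact pow_le_pow_left₀ hX hXR 2
  have hsR : s * R ^ 2 = X ^ 2 := by rw [hs]; field_simp
  have h5 := hcB s hs0 hs1
  have hsN1 : s ^ N ≤ 1 := pow_le_one₀ hs0 hs1
  have hsN0 : 0 ≤ s ^ N := pow_nonneg hs0 N
  have hc2 : c ^ 2 ≤ 1 := pow_le_one₀ hc hc1
  have h6 : c ^ 2 * s ^ N ≤ 1 := mul_le_one₀ hc2 hsN0 hsN1
  have h7 : (B * X ^ (N + 1) * t) ^ 2 ≤ (R ^ (N + 2) * (1 - c ^ 2 * s ^ N)) ^ 2 := by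
    have h8 : (B * X ^ (N + 1) * t) ^ 2 = B ^ 2 * (X ^ 2) ^ (N + 1) * t ^ 2 := by ring
    have h9 : B ^ 2 * (X ^ 2) ^ (N + 1) * t ^ 2 ≤
        B ^ 2 * (X ^ 2) ^ (N + 1) * (R ^ 2 - X ^ 2) := by
      apply mul_le_mul_of_nonneg_left hbes (by positivity)
    have h10 : B ^ 2 * (X ^ 2) ^ (N + 1) * (R ^ 2 - X ^ 2) =
        (R ^ (N + 2)) ^ 2 * (B ^ 2 * (s ^ (N + 1) * (1 - s))) := by
      rw [← hsR, mul_pow]
      ring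
    rw [h8]
    refine h9.trans ?_
    rw [h10, mul_pow]
    exact mul_le_mul_of_nonneg_left h5 (by positivity)
  have h8 : B * X ^ (N + 1) * t ≤ R ^ (N + 2) * (1 - c ^ 2 * s ^ N) :=
    (pow_le_pow_iff_left₀ (by positivity) (mul_nonneg (by positivity) (by linarith))
      two_ne_zero).1 h7
  have h9 : (c * X ^ N) ^ 2 = c ^ 2 * s ^ N * (R ^ 2) ^ N := by
    rw [mul_pow, ← pow_mul, mul_comm N 2, pow_mul, ← hsR, mul_pow]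
    ring
  have h10 : (R ^ 2) ^ N < 1 := pow_lt_one₀ hR2.le (pow_lt_one₀ hR0.le hR1 two_ne_zero) (by omega)
  have h12 : (c * X ^ N) ^ 2 ≤ c ^ 2 * s ^ N := by
    rw [h9]
    exact mul_le_of_le_one_right (by positivity) h10.le
  have h13 : (c * X ^ N) ^ 2 < 1 := by
    rw [h9]
    calc c ^ 2 * s ^ N * (R ^ 2) ^ N ≤ 1 * (R ^ 2) ^ N :=
          mul_le_mul_of_nonneg_right h6 (by positivity)
      _ < 1 := by rw [one_mul]; exact h10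
  have h14 : R ^ (N + 2) < R ^ 2 :=
    pow_lt_pow_right_of_lt_one₀ hR0 hR1 (by omega)
  calc B * X ^ (N + 1) * t ≤ R ^ (N + 2) * (1 - c ^ 2 * s ^ N) := h8
    _ ≤ R ^ (N + 2) * (1 - (c * X ^ N) ^ 2) :=
        mul_le_mul_of_nonneg_left (by linarith) (by positivity)
    _ < R ^ 2 * (1 - (c * X ^ N) ^ 2) := by
        apply mul_lt_mul_of_pos_right h14; linarith

/-- The explicit maps. -/
noncomputable def fam (N : ℕ) (e₁ e₂ : E) (c B : ℝ) (ε : ℂ) (x : E) : E :=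
  ((1 + c * ε * (innerSL ℂ e₁ x) ^ N) * (1 - c * ε * (innerSL ℂ e₁ x) ^ N)⁻¹) • x +
    (ε * B * (innerSL ℂ e₁ x) ^ (N + 1) * ((1 - c * ε * (innerSL ℂ e₁ x) ^ N) ^ 2)⁻¹) • e₂

section Mem

variable {N : ℕ} {e₁ e₂ : E} {c B : ℝ} {ε : ℂ}

theorem norm_term (hc : 0 ≤ c) (hε : ‖ε‖ = 1) (x : E) :
    ‖(c : ℂ) * ε * (innerSL ℂ e₁ x) ^ N‖ = c * ‖inner ℂ e₁ x‖ ^ N := by
  rw [norm_mul, norm_mul, norm_pow, hε, Complex.norm_real, Real.norm_of_nonneg hc, mul_one]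
  rfl

theorem norm_inner_lt (he₁ : ‖e₁‖ = 1) {x : E} (hx : ‖x‖ < 1) : ‖inner ℂ e₁ x‖ < 1 := by
  have := norm_inner_le_norm (𝕜 := ℂ) e₁ x
  rw [he₁, one_mul] at this
  linarith

theorem den_ne (hN : 1 ≤ N) (he₁ : ‖e₁‖ = 1) (hc : 0 ≤ c) (hc1 : c ≤ 1) (hε : ‖ε‖ = 1) {x : E}
    (hx : ‖x‖ < 1) : (1 : ℂ) - c * ε * (innerSL ℂ e₁ x) ^ N ≠ 0 := by
  intro h0
  have h1 : (c : ℂ) * ε * (innerSL ℂ e₁ x) ^ N = 1 := (sub_eq_zero.1 h0).symm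
  have h2 := norm_term (N := N) (e₁ := e₁) hc hε x
  rw [h1, norm_one] at h2
  have h3 : ‖inner ℂ e₁ x‖ ^ N < 1 :=
    pow_lt_one₀ (norm_nonneg _) (norm_inner_lt he₁ hx) (by omega)
  nlinarith [pow_nonneg (norm_nonneg (inner ℂ e₁ x)) N]

theorem bessel (he₁ : ‖e₁‖ = 1) (he₂ : ‖e₂‖ ≤ 1) (he : inner ℂ e₁ e₂ = 0) (x : E) :
    ‖inner ℂ x e₂‖ ^ 2 ≤ ‖x‖ ^ 2 - ‖inner ℂ e₁ x‖ ^ 2 := by
  set y : E := x - (inner ℂ e₁ x) • e₁ with hy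
  have h1 : inner ℂ y e₂ = inner ℂ x e₂ := by
    rw [hy, inner_sub_left, inner_smul_left, he, mul_zero, sub_zero]
  have h2 : inner ℂ e₁ y = 0 := by
    rw [hy, inner_sub_right, inner_smul_right, inner_self_eq_norm_sq_to_K, he₁]
    simp
  have h3 : x = y + (inner ℂ e₁ x) • e₁ := by rw [hy]; abel
  have h4 : ‖x‖ ^ 2 = ‖y‖ ^ 2 + ‖inner ℂ e₁ x‖ ^ 2 := by
    have h5 : inner ℂ y ((inner ℂ e₁ x) • e₁) = 0 := by
      rw [inner_smul_right, ← inner_conj_symm y e₁, h2]; simp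
    have h6 := norm_add_sq (𝕜 := ℂ) y ((inner ℂ e₁ x) • e₁)
    rw [← h3, h5] at h6
    rw [h6, norm_smul, he₁]
    simp
  have h7 : ‖inner ℂ x e₂‖ ≤ ‖y‖ := by
    rw [← h1]
    calc ‖inner ℂ y e₂‖ ≤ ‖y‖ * ‖e₂‖ := norm_inner_le_norm _ _
      _ ≤ ‖y‖ * 1 := by gcongr
      _ = ‖y‖ := mul_one _
  have h8 : ‖inner ℂ x e₂‖ ^ 2 ≤ ‖y‖ ^ 2 := by gcongr
  linarith

theorem fam_pos (hN : 1 ≤ N) (he₁ : ‖e₁‖ = 1) (he₂ : ‖e₂‖ ≤ 1) (he : inner ℂ e₁ e₂ = 0)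
    (hc : 0 ≤ c) (hc1 : c ≤ 1) (hε : ‖ε‖ = 1) (hB : 0 ≤ B)
    (hcB : ∀ s : ℝ, 0 ≤ s → s ≤ 1 → B ^ 2 * (s ^ (N + 1) * (1 - s)) ≤ (1 - c ^ 2 * s ^ N) ^ 2)
    {x : E} (hx : ‖x‖ < 1) (hx0 : x ≠ 0) : 0 < (inner ℂ x (fam N e₁ e₂ c B ε x)).re := by
  set R : ℝ := ‖x‖ with hR
  have hR0 : 0 < R := norm_pos_iff.2 hx0
  set ξ : ℂ := inner ℂ e₁ x with hξ
  set Y : ℂ := c * ε * ξ ^ N with hY
  have hYn : ‖Y‖ = c * ‖ξ‖ ^ N := norm_term hc hε x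
  have hden : (1 : ℂ) - Y ≠ 0 := den_ne hN he₁ hc hc1 hε hx
  have hW : 0 < ‖1 - Y‖ ^ 2 := by have := norm_pos_iff.2 hden; positivity
  set t : ℝ := ‖inner ℂ x e₂‖ with ht
  have hbes : t ^ 2 ≤ R ^ 2 - ‖ξ‖ ^ 2 := bessel he₁ he₂ he x
  have hξR : ‖ξ‖ ≤ R := by
    have := norm_inner_le_norm (𝕜 := ℂ) e₁ x
    rwa [he₁, one_mul] at this
  have e1 : inner ℂ x (fam N e₁ e₂ c B ε x) =
      ((1 + Y) * (1 - Y)⁻¹) * ((R ^ 2 : ℝ) : ℂ) +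
        (ε * B * ξ ^ (N + 1) * ((1 - Y) ^ 2)⁻¹) * inner ℂ x e₂ := by
    unfold fam
    rw [inner_add_right, inner_smul_right, inner_smul_right, inner_self_eq_norm_sq_to_K]
    simp only [innerSL_apply_apply, ← hξ, ← hY]
    push_cast
    simp only [Complex.coe_algebraMap, hR]
  have e2 : ((1 + Y) * (1 - Y)⁻¹).re = (1 - ‖Y‖ ^ 2) / ‖1 - Y‖ ^ 2 := by
    have h5 : (1 + Y) * (1 - Y)⁻¹ = ((1 + Y) * (starRingEnd ℂ) (1 - Y)) * ((‖1 - Y‖ ^ 2)⁻¹ : ℝ) := by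
      rw [Complex.inv_def, Complex.normSq_eq_norm_sq]
      push_cast
      ring
    have h6 : ((1 + Y) * (starRingEnd ℂ) (1 - Y)).re = 1 - ‖Y‖ ^ 2 := by
      rw [← Complex.normSq_eq_norm_sq, Complex.normSq_apply]
      simp
      ring
    rw [h5, Complex.re_mul_ofReal, h6]
    field_simp
  have e3 : -(B * ‖ξ‖ ^ (N + 1) * t / ‖1 - Y‖ ^ 2) ≤
      ((ε * B * ξ ^ (N + 1) * ((1 - Y) ^ 2)⁻¹) * inner ℂ x e₂).re := by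
    have h5 : ‖(ε * B * ξ ^ (N + 1) * ((1 - Y) ^ 2)⁻¹) * inner ℂ x e₂‖ =
        B * ‖ξ‖ ^ (N + 1) * t / ‖1 - Y‖ ^ 2 := by
      rw [norm_mul, norm_mul, norm_mul, norm_mul, norm_inv, norm_pow, norm_pow, hε, one_mul,
        Complex.norm_real, Real.norm_of_nonneg hB, ← ht]
      field_simp
    have h6 := Complex.abs_re_le_norm ((ε * B * ξ ^ (N + 1) * ((1 - Y) ^ 2)⁻¹) * inner ℂ x e₂)
    rw [h5] at h6
    linarith [neg_abs_le ((ε * B * ξ ^ (N + 1) * ((1 - Y) ^ 2)⁻¹) * inner ℂ x e₂).re]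
  -- the real inequality
  have main : B * ‖ξ‖ ^ (N + 1) * t < R ^ 2 * (1 - ‖Y‖ ^ 2) := by
    rw [hYn]
    exact real_main hN hR0 hx (norm_nonneg _) hξR (norm_nonneg _) hbes hc hc1 hB hcB
  rw [e1, Complex.add_re, Complex.re_mul_ofReal, e2]
  have h5 : (1 - ‖Y‖ ^ 2) / ‖1 - Y‖ ^ 2 * R ^ 2 - B * ‖ξ‖ ^ (N + 1) * t / ‖1 - Y‖ ^ 2 =
      (R ^ 2 * (1 - ‖Y‖ ^ 2) - B * ‖ξ‖ ^ (N + 1) * t) / ‖1 - Y‖ ^ 2 := by ring
  have h6 : 0 < (R ^ 2 * (1 - ‖Y‖ ^ 2) - B * ‖ξ‖ ^ (N + 1) * t) / ‖1 - Y‖ ^ 2 :=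
    div_pos (by linarith) hW
  linarith

theorem fam_mem (hN : 1 ≤ N) (he₁ : ‖e₁‖ = 1) (he₂ : ‖e₂‖ ≤ 1) (he : inner ℂ e₁ e₂ = 0)
    (hc : 0 ≤ c) (hc1 : c ≤ 1) (hε : ‖ε‖ = 1) (hB : 0 ≤ B)
    (hcB : ∀ s : ℝ, 0 ≤ s → s ≤ 1 → B ^ 2 * (s ^ (N + 1) * (1 - s)) ≤ (1 - c ^ 2 * s ^ N) ^ 2) :
    fam N e₁ e₂ c B ε ∈ caraFamily E := by
  have hN0 : N ≠ 0 := by omega
  have hN1 : N + 1 ≠ 0 := by omega
  refine ⟨?_, ?_, ?_, ?_⟩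
  · intro x hx
    have h1 : (1 : ℂ) - c * ε * (innerSL ℂ e₁ x) ^ N ≠ 0 :=
      den_ne hN he₁ hc hc1 hε (by simpa using hx)
    have h2 : ((1 : ℂ) - c * ε * (innerSL ℂ e₁ x) ^ N) ^ 2 ≠ 0 := pow_ne_zero _ h1
    apply DifferentiableAt.differentiableWithinAt
    unfold fam
    fun_prop (disch := assumption)
  · simp [fam, hN0]
  · have hL : HasFDerivAt (fun x : E => innerSL ℂ e₁ x) (innerSL ℂ e₁) 0 :=
      (innerSL ℂ e₁).hasFDerivAt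
    have hp1 : (1 : ℂ) - c * ε * (innerSL ℂ e₁ (0 : E)) ^ N ≠ 0 := by simp [hN0]
    have hp2 : ((1 : ℂ) - c * ε * (innerSL ℂ e₁ (0 : E)) ^ N) ^ 2 ≠ 0 := pow_ne_zero _ hp1
    have hpd : DifferentiableAt ℂ (fun x : E => (1 + c * ε * (innerSL ℂ e₁ x) ^ N) *
        (1 - c * ε * (innerSL ℂ e₁ x) ^ N)⁻¹) 0 := by
      fun_prop (disch := assumption)
    have hkd : DifferentiableAt ℂ (fun x : E => ε * B *
        ((1 - c * ε * (innerSL ℂ e₁ x) ^ N) ^ 2)⁻¹ * (innerSL ℂ e₁ x) ^ N) 0 := by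
      fun_prop (disch := assumption)
    have h1 := hpd.hasFDerivAt.smul (hasFDerivAt_id (𝕜 := ℂ) (0 : E))
    have h2 := (hkd.hasFDerivAt.mul hL).smul_const e₂
    have h3 := h1.add h2
    have h4 : fam N e₁ e₂ c B ε = (fun x : E => ((1 + c * ε * (innerSL ℂ e₁ x) ^ N) *
        (1 - c * ε * (innerSL ℂ e₁ x) ^ N)⁻¹) • id x) + fun x : E => ((ε * B *
        ((1 - c * ε * (innerSL ℂ e₁ x) ^ N) ^ 2)⁻¹ * (innerSL ℂ e₁ x) ^ N) *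
        innerSL ℂ e₁ x) • e₂ := by
      funext x
      simp only [fam, Pi.add_apply, id_eq, pow_succ]
      congr 2
      ring
    rw [h4]
    refine HasFDerivAt.fderiv (h3.congr_fderiv ?_)
    ext x
    simp [hN0]
  · intro x hx hx0
    exact fam_pos hN he₁ he₂ he hc hc1 hε hB hcB (by simpa using hx) hx0

end Mem

end Pool.Agent.Y952.Cara
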