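import Mathlib
import Pool.Agent.Y952.CaraFam

/-!
The exact set of values `P_m(z)` over the Caratheodory family.
-/

set_option autoImplicit false

namespace Pool.Agent.Y952.Cara

open Metric Set Filter Topology Pool.Agent.Helper540

section Real

variable {m : ℕ} {g : ℝ}

theorem sq_le_one' (hg : g ∈ Icc (0 : ℝ) 1) : g ^ 2 ≤ 1 := pow_le_one₀ hg.1 hg.2

theorem dd_pos (hm : 2 ≤ m) (hg : g ∈ Icc (0 : ℝ) 1) : 0 < dd m g := by
  have h1 := sq_le_one' hg
  have h2 := sq_nonneg g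
  have hm' : (2 : ℝ) ≤ m := by exact_mod_cast hm
  unfold dd
  nlinarith [mul_nonneg (sub_nonneg.2 hm') h2]

theorem mm_pos (hm : 2 ≤ m) : 0 < (m : ℝ) + (m - 2) * g ^ 2 := by
  have h2 := sq_nonneg g
  have hm' : (2 : ℝ) ≤ m := by exact_mod_cast hm
  nlinarith [mul_nonneg (sub_nonneg.2 hm') h2]

theorem rad_sq (hm : 2 ≤ m) (hg : g ∈ Icc (0 : ℝ) 1) :
    rad m g ^ 2 = (m - g ^ 2) * (1 + g ^ 2) / dd m g := by
  have h1 := sq_le_one' hg
  have hm' : (2 : ℝ) ≤ m := by exact_mod_cast hm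
  refine Real.sq_sqrt (div_nonneg (mul_nonneg (by linarith) (by positivity)) (dd_pos hm hg).le)

theorem rad_sq_mul (hm : 2 ≤ m) (hg : g ∈ Icc (0 : ℝ) 1) :
    rad m g ^ 2 * dd m g = (m - g ^ 2) * (1 + g ^ 2) := by
  rw [rad_sq hm hg, div_mul_cancel₀ _ (dd_pos hm hg).ne']

theorem rad_pos (hm : 2 ≤ m) (hg : g ∈ Icc (0 : ℝ) 1) : 0 < rad m g := by
  have h1 := sq_le_one' hg
  have hm' : (2 : ℝ) ≤ m := by exact_mod_cast hm
  refine Real.sqrt_pos.2 (div_pos (mul_pos (by linarith) (by positivity)) (dd_pos hm hg))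

theorem rad_le_one (hm : 2 ≤ m) (hg : g ∈ Icc (0 : ℝ) 1) : rad m g ≤ 1 := by
  have h1 := rad_sq_mul hm hg
  have h2 := dd_pos hm hg
  have h3 : rad m g ^ 2 ≤ 1 := by
    by_contra hcon
    push Not at hcon
    have h4 : dd m g < rad m g ^ 2 * dd m g := by nlinarith
    rw [h1] at h4
    unfold dd at h4
    nlinarith [sq_nonneg (1 - g ^ 2)]
  have h5 := rad_pos hm hg
  nlinarith

theorem ss_sq (hm : 2 ≤ m) (hg : g ∈ Icc (0 : ℝ) 1) :
    ss m g ^ 2 = (1 - g ^ 2) * (m + (m - 2) * g ^ 2) :=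
  Real.sq_sqrt (mul_nonneg (by linarith [sq_le_one' hg]) (mm_pos hm).le)

theorem ss_nonneg : 0 ≤ ss m g := Real.sqrt_nonneg _

theorem bdA_nonneg (hm : 2 ≤ m) (hg : g ∈ Icc (0 : ℝ) 1) : 0 ≤ bdA m g := by
  have h1 := sq_le_one' hg
  have h2 := rad_pos hm hg
  unfold bdA
  have := hg.1
  have h3 : 0 ≤ 1 - g ^ 2 := by linarith
  positivity

theorem bdB_nonneg (hm : 2 ≤ m) (hg : g ∈ Icc (0 : ℝ) 1) : 0 ≤ bdB m g := by
  have h2 := rad_pos hm hg
  have := ss_nonneg (m := m) (g := g)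
  unfold bdB
  positivity

/-- Tightness: the point `(bdA, bdB)` lies on the supporting line of parameter `g`. -/
theorem tight (hm : 2 ≤ m) (hg : g ∈ Icc (0 : ℝ) 1) :
    rad m g ^ (m - 1) * (g * dd m g * bdA m g + (1 - g ^ 2) * ss m g * bdB m g) =
      (1 + g ^ 2) * dd m g := by
  have h1 := rad_pos hm hg
  have h2 := rad_sq_mul hm hg
  have h3 := ss_sq hm hg
  have h4 : rad m g ^ (m + 1) = rad m g ^ (m - 1) * rad m g ^ 2 := by
    rw [← pow_add]; congr 1; omega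
  have h5 : 0 < rad m g ^ (m - 1) := by positivity
  have h6 : rad m g ^ (m - 1) * (g * dd m g * bdA m g + (1 - g ^ 2) * ss m g * bdB m g) =
      (g ^ 2 * dd m g * (1 - g ^ 2 + 2 * rad m g ^ 2) + (1 - g ^ 2) * ss m g ^ 2) /
        rad m g ^ 2 := by
    unfold bdA bdB
    rw [h4]
    field_simp
  rw [h6, div_eq_iff (by positivity), h3]
  have h7 : dd m g = m + 1 + (m - 3) * g ^ 2 := rfl
  have h8 : (1 + g ^ 2) * dd m g * rad m g ^ 2 = (1 + g ^ 2) * ((m - g ^ 2) * (1 + g ^ 2)) := by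
    rw [← h2]; ring
  have h9 : g ^ 2 * dd m g * (1 - g ^ 2 + 2 * rad m g ^ 2) =
      g ^ 2 * (dd m g * (1 - g ^ 2)) + 2 * g ^ 2 * ((m - g ^ 2) * (1 + g ^ 2)) := by
    rw [← h2]; ring
  rw [h8, h9, h7]
  ring

theorem bdA_zero : bdA m 0 = 0 := by simp [bdA]

theorem rad_one (hm : 2 ≤ m) : rad m 1 = 1 := by
  have hm' : (2 : ℝ) ≤ m := by exact_mod_cast hm
  have h : ((m : ℝ) - 1 ^ 2) * (1 + 1 ^ 2) / dd m 1 = 1 := by
    unfold dd
    rw [div_eq_one_iff_eq (by nlinarith)]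
    ring
  rw [rad, h, Real.sqrt_one]

theorem bdA_one (hm : 2 ≤ m) : bdA m 1 = 2 := by
  rw [bdA, rad_one hm]; norm_num

theorem bdB_one : bdB m 1 = 0 := by simp [bdB, ss]

theorem ss_pos (hm : 2 ≤ m) (hg0 : 0 ≤ g) (hg1 : g < 1) : 0 < ss m g := by
  have h1 : g ^ 2 < 1 := pow_lt_one₀ hg0 hg1 two_ne_zero
  exact Real.sqrt_pos.2 (mul_pos (by linarith) (mm_pos hm))

theorem bdB_pos (hm : 2 ≤ m) (hg0 : 0 ≤ g) (hg1 : g < 1) : 0 < bdB m g := by
  have h2 := rad_pos hm (g := g) ⟨hg0, hg1.le⟩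
  have := ss_pos hm hg0 hg1
  unfold bdB
  positivity

theorem bdA_pos (hm : 2 ≤ m) (hg0 : 0 < g) (hg1 : g ≤ 1) : 0 < bdA m g := by
  have h1 := sq_le_one' (g := g) ⟨hg0.le, hg1⟩
  have h2 := rad_pos hm (g := g) ⟨hg0.le, hg1⟩
  unfold bdA
  have h3 : 0 ≤ 1 - g ^ 2 := by linarith
  positivity

theorem continuousOn_rad (hm : 2 ≤ m) : ContinuousOn (rad m) (Icc 0 1) := by
  unfold rad dd
  apply ContinuousOn.sqrt
  apply ContinuousOn.div (by fun_prop) (by fun_prop)
  intro g hg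
  exact (dd_pos hm hg).ne'

/-- The two descriptions of the region agree. -/
theorem exists_of_forall (hm : 2 ≤ m) {a b : ℝ} (ha : 0 ≤ a) (hb : 0 ≤ b)
    (h : ∀ g ∈ Icc (0 : ℝ) 1,
      rad m g ^ (m - 1) * (g * dd m g * a + (1 - g ^ 2) * ss m g * b) ≤ (1 + g ^ 2) * dd m g) :
    ∃ g ∈ Icc (0 : ℝ) 1, a ≤ bdA m g ∧ b ≤ bdB m g := by
  have hr := continuousOn_rad hm
  have hc : ContinuousOn (fun g => b * bdA m g - a * bdB m g) (Icc 0 1) := by
    have h1 : ContinuousOn (bdA m) (Icc 0 1) := by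
      unfold bdA
      apply ContinuousOn.div
      · fun_prop
      · fun_prop
      · intro g hg
        have := rad_pos hm hg
        positivity
    have h2 : ContinuousOn (bdB m) (Icc 0 1) := by
      unfold bdB ss
      apply ContinuousOn.div
      · exact ContinuousOn.sqrt (by fun_prop)
      · fun_prop
      · intro g hg
        have := rad_pos hm hg
        positivity
    exact (continuousOn_const.mul h1).sub (continuousOn_const.mul h2)
  have h0 : (0 : ℝ) ∈ Icc ((fun g => b * bdA m g - a * bdB m g) 0)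
      ((fun g => b * bdA m g - a * bdB m g) 1) := by
    constructor
    · simp only [bdA_zero, mul_zero, zero_sub, neg_nonpos]
      exact mul_nonneg ha (bdB_nonneg hm ⟨le_rfl, zero_le_one⟩)
    · simp only [bdA_one hm, bdB_one, mul_zero, sub_zero]
      positivity
  obtain ⟨g, hg, hfg⟩ := intermediate_value_Icc zero_le_one hc h0
  simp only at hfg
  refine ⟨g, hg, ?_⟩
  have hA := bdA_nonneg hm hg
  have hB := bdB_nonneg hm hg
  have hkey := h g hg
  rw [← tight hm hg] at hkey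
  have hrp : 0 < rad m g ^ (m - 1) := by have := rad_pos hm hg; positivity
  have hkey2 := le_of_mul_le_mul_left hkey hrp
  have hd := dd_pos hm hg
  have hS := ss_nonneg (m := m) (g := g)
  have h1g : 0 ≤ 1 - g ^ 2 := by linarith [sq_le_one' hg]
  rcases hg.1.eq_or_lt with hg0 | hg0
  · -- g = 0
    subst hg0
    have hB0 : 0 < bdB m 0 := bdB_pos hm le_rfl one_pos
    rw [bdA_zero] at hfg ⊢
    have ha0 : a = 0 := by
      have : a * bdB m 0 = 0 := by linarith
      rcases mul_eq_zero.1 this with h2 | h2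
      · exact h2
      · exact absurd h2 hB0.ne'
    refine ⟨ha0.le, ?_⟩
    have hs0 : 0 < ss m 0 := ss_pos hm le_rfl one_pos
    simp only [zero_mul, zero_add] at hkey2
    have h3 : 0 < (1 - (0 : ℝ) ^ 2) * ss m 0 := by simpa using hs0
    exact le_of_mul_le_mul_left hkey2 h3
  · have hA0 := bdA_pos hm hg0 hg.2
    have hab : a ≤ bdA m g := by
      by_contra hcon
      push Not at hcon
      have h3 : bdB m g ≤ b := by
        by_contra h4
        push Not at h4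
        have h5 : b * bdA m g < bdB m g * bdA m g := mul_lt_mul_of_pos_right h4 hA0
        have h6 : bdB m g * bdA m g ≤ bdB m g * a := mul_le_mul_of_nonneg_left hcon.le hB
        nlinarith
      have h4 : g * dd m g * bdA m g < g * dd m g * a :=
        mul_lt_mul_of_pos_left hcon (by positivity)
      have h5 : (1 - g ^ 2) * ss m g * bdB m g ≤ (1 - g ^ 2) * ss m g * b :=
        mul_le_mul_of_nonneg_left h3 (by positivity)
      linarith
    refine ⟨hab, ?_⟩
    have h3 : b * bdA m g = a * bdB m g := by linarith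
    have h4 : b * bdA m g ≤ bdB m g * bdA m g := by
      rw [h3, mul_comm a]
      exact mul_le_mul_of_nonneg_left hab hB
    exact le_of_mul_le_mul_right h4 hA0

/-- The constant at `g = 0`. -/
theorem bdB_zero (hm : 2 ≤ m) :
    bdB m 0 = Real.sqrt (((m : ℝ) + 1) ^ (m + 1) / (m : ℝ) ^ m) := by
  have hm' : (2 : ℝ) ≤ m := by exact_mod_cast hm
  have h0 : (0 : ℝ) ∈ Icc (0 : ℝ) 1 := ⟨le_rfl, zero_le_one⟩
  symm
  rw [Real.sqrt_eq_iff_mul_self_eq (by positivity) (bdB_nonneg hm h0)]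
  have h1 := ss_sq hm h0
  have h2 := rad_sq hm h0
  have h3 : bdB m 0 * bdB m 0 = ss m 0 ^ 2 / (rad m 0 ^ 2) ^ (m + 1) := by
    unfold bdB
    rw [div_mul_div_comm, ← pow_mul, mul_comm 2, pow_mul, ← sq, ← sq]
  rw [h3, h1, h2]
  unfold dd
  have h4 : (m : ℝ) ≠ 0 := by linarith
  have h5 : (m : ℝ) + 1 ≠ 0 := by linarith
  norm_num
  rw [div_pow, pow_succ (m : ℝ) m]
  field_simp

end Real

end Pool.Agent.Y952.Cara
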