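import Mathlib
import Pool.Agent.Y952.CaraRegion

/-!
The exact set of values `P_m(z)` over the Caratheodory family: necessity.
-/

set_option autoImplicit false

namespace Pool.Agent.Y952.Cara

open Metric Set Filter Topology Pool.Agent.Helper540

variable {E : Type*} [NormedAddCommGroup E] [InnerProductSpace ℂ E]

theorem pos_le {h : E → E} (hh : h ∈ caraFamily E) :
    ∀ z ∈ ball (0 : E) 1, 0 ≤ (inner ℂ z (h z)).re := by
  intro w hw
  rcases eq_or_ne w 0 with hw0 | hw0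
  · simp [hw0]
  · exact (hh.2.2.2 w hw hw0).le

variable [CompleteSpace E]

theorem along {h : E → E} (hh : h ∈ caraFamily E) {m : ℕ} (hm : 2 ≤ m) {z : E} (hz : ‖z‖ = 1)
    {s : ℝ} (hs0 : 0 ≤ s) (hs1 : s < 1) : s * ‖inner ℂ z (homPart m h z)‖ ≤ 1 + s ^ 2 := by
  have h1 := key_abs hh.1 hh.2.1 hh.2.2.1 (pos_le hh) hm hz hz (x := s) (y := 1) (ρ := s)
    zero_le_one le_rfl hs0 hs1 (by ring)
    (by rw [inner_self_eq_norm_sq_to_K, hz]; simp)
  simpa [homPart_eq] using h1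

theorem along_le {h : E → E} (hh : h ∈ caraFamily E) {m : ℕ} (hm : 2 ≤ m) {z : E}
    (hz : ‖z‖ = 1) : ‖inner ℂ z (homPart m h z)‖ ≤ 2 := by
  set a := ‖inner ℂ z (homPart m h z)‖ with ha
  have ha0 : 0 ≤ a := norm_nonneg _
  by_contra hcon
  push Not at hcon
  have h1 := along hh hm hz (s := 2 / a) (by positivity) ((div_lt_one (by linarith)).2 hcon)
  rw [← ha, div_mul_cancel₀ _ (by linarith)] at h1
  have h2 : (2 / a) ^ 2 < 1 :=
    pow_lt_one₀ (by positivity) ((div_lt_one (by linarith)).2 hcon) two_ne_zero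
  linarith

/-- Necessity. -/
theorem nec {h : E → E} (hh : h ∈ caraFamily E) {m : ℕ} (hm : 2 ≤ m) {z : E} (hz : ‖z‖ = 1)
    {g : ℝ} (hg : g ∈ Icc (0 : ℝ) 1) :
    rad m g ^ (m - 1) * (g * dd m g * ‖inner ℂ z (homPart m h z)‖ +
      (1 - g ^ 2) * ss m g * ‖homPart m h z - (inner ℂ z (homPart m h z)) • z‖) ≤
      (1 + g ^ 2) * dd m g := by
  have hD := dd_pos hm hg
  have hρ := rad_pos hm hg
  have hρ1 := rad_le_one hm hg
  set P : E := homPart m h z with hP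
  set α : ℂ := inner ℂ z P with hα
  set w : E := P - α • z with hw
  have hzw : inner ℂ z w = 0 := by
    rw [hw, inner_sub_right, inner_smul_right, inner_self_eq_norm_sq_to_K, hz, ← hα]
    simp
  rcases hg.2.eq_or_lt with hg1 | hg1
  · subst hg1
    have h1 := along_le hh hm hz
    rw [← hP, ← hα] at h1
    rw [rad_one hm]
    simp only [one_pow, sub_self, zero_mul, add_zero, one_mul]
    nlinarith
  rcases eq_or_ne w 0 with hw0 | hw0
  · have h1 := along hh hm hz hg.1 hg1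
    rw [← hP, ← hα] at h1
    rw [hw0, norm_zero, mul_zero, add_zero]
    have h2 : rad m g ^ (m - 1) ≤ 1 := pow_le_one₀ hρ.le hρ1
    have h3 : 0 ≤ g * dd m g * ‖α‖ := by have := hg.1; positivity
    calc rad m g ^ (m - 1) * (g * dd m g * ‖α‖) ≤ 1 * (g * dd m g * ‖α‖) :=
          mul_le_mul_of_nonneg_right h2 h3
      _ = (g * ‖α‖) * dd m g := by ring
      _ ≤ (1 + g ^ 2) * dd m g := mul_le_mul_of_nonneg_right h1 hD.le
  -- the general case
  have hg0 := hg.1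
  have hb : 0 < ‖w‖ := norm_pos_iff.2 hw0
  have hbc : ((‖w‖ : ℝ) : ℂ) ≠ 0 := by exact_mod_cast hb.ne'
  set u : E := ((‖w‖ : ℝ) : ℂ)⁻¹ • w with hu
  have hun : ‖u‖ = 1 := by
    rw [hu, norm_smul, norm_inv, Complex.norm_real, norm_norm, inv_mul_cancel₀ hb.ne']
  have hzu : inner ℂ z u = 0 := by rw [hu, inner_smul_right, hzw, mul_zero]
  have huz : inner ℂ u z = 0 := by rw [← inner_conj_symm, hzu]; simp
  have hPd : P = α • z + ((‖w‖ : ℝ) : ℂ) • u := by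
    rw [hu, smul_smul, mul_inv_cancel₀ hbc, one_smul, hw]; abel
  have huP : inner ℂ u P = ((‖w‖ : ℝ) : ℂ) := by
    rw [hPd, inner_add_right, inner_smul_right, inner_smul_right, huz,
      inner_self_eq_norm_sq_to_K, hun]
    simp
  obtain ⟨η, hη, hαη⟩ : ∃ η : ℂ, ‖η‖ = 1 ∧ α = ((‖α‖ : ℝ) : ℂ) * η := by
    rcases eq_or_ne α 0 with h0 | h0
    · exact ⟨1, by simp, by rw [h0]; simp⟩
    · have h3 : ((‖α‖ : ℝ) : ℂ) ≠ 0 := by exact_mod_cast (norm_pos_iff.2 h0).ne'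
      refine ⟨α / ((‖α‖ : ℝ) : ℂ), ?_, ?_⟩
      · rw [norm_div, Complex.norm_real, norm_norm, div_self (norm_pos_iff.2 h0).ne']
      · field_simp
  have hτ1 : g ^ 2 < 1 := pow_lt_one₀ hg0 hg1 two_ne_zero
  have hm' : (2 : ℝ) ≤ m := by exact_mod_cast hm
  have hρ2 := rad_sq_mul hm hg
  have hS2 := ss_sq hm hg
  have hDM : dd m g = (m + (m - 2) * g ^ 2) + 1 - g ^ 2 := by unfold dd; ring
  have hM := mm_pos (g := g) hm
  set ρ := rad m g with hρd
  set D := dd m g with hDd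
  set S := ss m g with hSd
  clear_value ρ D S
  obtain ⟨x, hx0, hx2⟩ : ∃ x : ℝ, 0 < x ∧ x ^ 2 = (1 + g ^ 2) * (1 + (m - 2) * g ^ 2) / D := by
    have h3 : 0 < (1 + g ^ 2) * (1 + ((m : ℝ) - 2) * g ^ 2) / D := by
      have h4 : 0 ≤ ((m : ℝ) - 2) * g ^ 2 := mul_nonneg (by linarith) (sq_nonneg g)
      positivity
    exact ⟨Real.sqrt _, Real.sqrt_pos.2 h3, Real.sq_sqrt h3.le⟩
  set κ : ℝ := (1 - g ^ 2) * S / (D * ρ) with hκ
  have hxρ : x ^ 2 + ρ ^ 2 = 1 + g ^ 2 := by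
    have h3 : (x ^ 2 + ρ ^ 2) * D = (1 + g ^ 2) * D := by
      rw [add_mul, hρ2, hx2, div_mul_cancel₀ _ hD.ne', hDM]
      ring
    exact mul_right_cancel₀ hD.ne' h3
  have hnw : (g / ρ / x) ^ 2 + (κ / x) ^ 2 = 1 := by
    have h3 : (g / ρ) ^ 2 + κ ^ 2 = x ^ 2 := by
      have h4 : ((g / ρ) ^ 2 + κ ^ 2) * (ρ ^ 2 * D ^ 2) = x ^ 2 * (ρ ^ 2 * D ^ 2) := by
        have h5 : ((g / ρ) ^ 2 + κ ^ 2) * (ρ ^ 2 * D ^ 2) =
            g ^ 2 * D ^ 2 + (1 - g ^ 2) ^ 2 * S ^ 2 := by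
          rw [hκ]; field_simp
        have h6 : x ^ 2 * (ρ ^ 2 * D ^ 2) = (x ^ 2 * D) * (ρ ^ 2 * D) := by ring
        rw [h5, h6, hρ2, hx2, div_mul_cancel₀ _ hD.ne', hS2, hDM]
        ring
      exact mul_right_cancel₀ (by positivity) h4
    rw [div_pow, div_pow κ, ← add_div, h3, div_self (by positivity)]
  set W : E := ((g / ρ / x : ℝ) : ℂ) • z + (((κ / x : ℝ) : ℂ) * (starRingEnd ℂ) η) • u with hW
  have hS0 : 0 ≤ S := by rw [hSd]; exact ss_nonneg
  have hκ0 : 0 ≤ κ := div_nonneg (mul_nonneg (by linarith) hS0) (by positivity)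
  have hWn : ‖W‖ = 1 := by
    have h3 : ‖W‖ ^ 2 = 1 := by
      have h1 := norm_add_sq (𝕜 := ℂ) (((g / ρ / x : ℝ) : ℂ) • z)
        ((((κ / x : ℝ) : ℂ) * (starRingEnd ℂ) η) • u)
      rw [inner_smul_left, inner_smul_right, hzu, norm_smul, norm_smul, hz, hun, norm_mul,
        Complex.norm_conj, hη, Complex.norm_real, Complex.norm_real,
        Real.norm_of_nonneg (show 0 ≤ g / ρ / x by positivity),
        Real.norm_of_nonneg (show 0 ≤ κ / x by positivity)] at h1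
      rw [hW, h1]
      simpa using hnw
    exact (pow_eq_one_iff_of_nonneg (norm_nonneg _) two_ne_zero).1 h3
  have hzW : ‖inner ℂ z W‖ = g / ρ / x := by
    rw [hW, inner_add_right, inner_smul_right, inner_smul_right, hzu,
      inner_self_eq_norm_sq_to_K, hz]
    simp only [mul_zero, add_zero]
    rw [norm_mul, Complex.norm_real, Real.norm_of_nonneg (by positivity)]
    simp
  have hWP : ‖inner ℂ W P‖ = (g / ρ * ‖α‖ + κ * ‖w‖) / x := by
    have h3 : inner ℂ W P = (((g / ρ * ‖α‖ + κ * ‖w‖) / x : ℝ) : ℂ) * η := by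
      obtain ⟨a, ha⟩ : ∃ a : ℝ, a = ‖α‖ := ⟨_, rfl⟩
      rw [← ha] at hαη ⊢
      rw [hW, inner_add_left, inner_smul_left, inner_smul_left, huP, ← hα, map_mul,
        Complex.conj_ofReal, Complex.conj_ofReal, Complex.conj_conj, hαη]
      push_cast
      ring
    rw [h3, norm_mul, hη, mul_one, Complex.norm_real, Real.norm_of_nonneg (by positivity)]
  have hfin := key_abs hh.1 hh.2.1 hh.2.2.1 (pos_le hh) hm hz hWn (x := x) (y := ρ) (ρ := g)
    hρ.le hρ1 hg0 hg1 hxρ (by rw [hzW]; field_simp)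
  rw [← homPart_eq, ← hP, hWP] at hfin
  have h3 : ρ ^ (m - 1) * (g * D * ‖α‖ + (1 - g ^ 2) * S * ‖w‖) =
      (x * ρ ^ m * ((g / ρ * ‖α‖ + κ * ‖w‖) / x)) * D := by
    have h4 : ρ ^ m = ρ ^ (m - 1) * ρ := by rw [← pow_succ]; congr 1; omega
    rw [h4, hκ]
    field_simp
  rw [h3]
  exact mul_le_mul_of_nonneg_right hfin hD.le

end Pool.Agent.Y952.Cara
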