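import Mathlib
import Pool.Agent.Y952.CaraRegion

/-!
The exact set of values `P_m(z)` over the Caratheodory family: both inclusions.
-/

set_option autoImplicit false

namespace Pool.Agent.Y952.Cara

open Metric Set Filter Topology Pool.Agent.Helper540

variable {E : Type*} [NormedAddCommGroup E] [InnerProductSpace ℂ E]

section Convex

theorem slice_contDiff [CompleteSpace E] {h : E → E} (hd : DifferentiableOn ℂ h (ball 0 1)) {u : E}
    (hu : ‖u‖ ≤ 1) (m : ℕ) : ContDiffAt ℂ m (fun t : ℂ => h (t • u)) 0 :=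
  contDiffAt_of_ball one_pos (slice_diff hd hu) m

theorem conv_mem {f g : E → E} (hf : f ∈ caraFamily E) (hg : g ∈ caraFamily E) {a b : ℝ}
    (ha : 0 ≤ a) (hb : 0 ≤ b) (hab : a + b = 1) :
    (fun x => (a : ℂ) • f x + (b : ℂ) • g x) ∈ caraFamily E := by
  obtain ⟨f1, f2, f3, f4⟩ := hf
  obtain ⟨g1, g2, g3, g4⟩ := hg
  refine ⟨?_, ?_, ?_, ?_⟩
  · exact (f1.const_smul (a : ℂ)).add (g1.const_smul (b : ℂ))
  · simp [f2, g2]
  · have h1 : HasFDerivAt f (ContinuousLinearMap.id ℂ E) 0 := by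
      rw [← f3]
      exact (f1.differentiableAt (ball_mem_nhds _ one_pos)).hasFDerivAt
    have h2 : HasFDerivAt g (ContinuousLinearMap.id ℂ E) 0 := by
      rw [← g3]
      exact (g1.differentiableAt (ball_mem_nhds _ one_pos)).hasFDerivAt
    have h3 := (h1.const_smul (a : ℂ)).add (h2.const_smul (b : ℂ))
    refine HasFDerivAt.fderiv (h3.congr_fderiv ?_)
    rw [← add_smul]
    have : (a : ℂ) + (b : ℂ) = 1 := by exact_mod_cast hab
    rw [this, one_smul]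
  · intro z hz hz0
    rw [inner_add_right, inner_smul_right, inner_smul_right, Complex.add_re, Complex.re_ofReal_mul,
      Complex.re_ofReal_mul]
    have h1 := f4 z hz hz0
    have h2 := g4 z hz hz0
    rcases ha.eq_or_lt with h0 | h0
    · have hb1 : b = 1 := by linarith
      rw [← h0, hb1]; linarith
    · have := mul_pos h0 h1
      have := mul_nonneg hb h2.le
      linarith

variable [CompleteSpace E]

/-- The attained values. -/
def vals (m : ℕ) (z : E) : Set E := (fun h => homPart m h z) '' caraFamily E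

theorem conv_vals {m : ℕ} {z : E} (hz : ‖z‖ = 1) {p q : E} (hp : p ∈ vals m z) (hq : q ∈ vals m z)
    {a b : ℝ} (ha : 0 ≤ a) (hb : 0 ≤ b) (hab : a + b = 1) :
    (a : ℂ) • p + (b : ℂ) • q ∈ vals m z := by
  obtain ⟨f, hf, rfl⟩ := hp
  obtain ⟨g, hg, rfl⟩ := hq
  refine ⟨_, conv_mem hf hg ha hb hab, ?_⟩
  simp only [homPart_eq]
  have h1 := slice_contDiff hf.1 hz.le m
  have h2 := slice_contDiff hg.1 hz.le m
  rw [tc_add m (h1.const_smul (a : ℂ)) (h2.const_smul (b : ℂ))]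
  have h3 := tc_clm ((a : ℂ) • ContinuousLinearMap.id ℂ E) m h1
  have h4 := tc_clm ((b : ℂ) • ContinuousLinearMap.id ℂ E) m h2
  simp only [FunLike.coe_smul, Pi.smul_apply, ContinuousLinearMap.id_apply] at h3 h4
  rw [h3, h4]

end Convex

section Coef

variable [CompleteSpace E] {N : ℕ} {e₁ e₂ : E} {c B : ℝ} {ε : ℂ}

theorem fam_homPart (hN : 1 ≤ N) (he₁ : ‖e₁‖ = 1) (he₂ : ‖e₂‖ ≤ 1) (hc : 0 ≤ c) (hc1 : c ≤ 1)
    (hε : ‖ε‖ = 1) (hB : 0 ≤ B) {z : E} (hz : ‖z‖ = 1)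
    (hmem : fam N e₁ e₂ c B ε ∈ caraFamily E) :
    homPart (N + 1) (fam N e₁ e₂ c B ε) z =
      (2 * c * ε * (inner ℂ e₁ z) ^ N) • z + (ε * B * (inner ℂ e₁ z) ^ (N + 1)) • e₂ := by
  set k : ℂ := inner ℂ e₁ z with hk
  have hk1 : ‖k‖ ≤ 1 := by
    have := norm_inner_le_norm (𝕜 := ℂ) e₁ z
    rwa [he₁, hz, one_mul] at this
  set v : E := (2 * c * ε * k ^ N) • z + (ε * B * k ^ (N + 1)) • e₂ with hv
  rw [homPart_eq]
  set F : ℂ → E := fun t : ℂ => fam N e₁ e₂ c B ε (t • z) with hF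
  have hFd : DifferentiableOn ℂ F (ball 0 1) := slice_diff hmem.1 hz.le
  have hsub : ball (0 : ℂ) (1 / 2) ⊆ ball 0 1 := ball_subset_ball (by norm_num)
  have hbound : ∀ t ∈ ball (0 : ℂ) (1 / 2),
      ‖F t - t ^ 1 • z - t ^ (N + 1) • v‖ ≤ (4 + 12 * B) * ‖t‖ ^ (N + 1 + 1) := by
    intro t ht
    have ht' : ‖t‖ < 1 / 2 := by simpa using ht
    set Y : ℂ := c * ε * (t * k) ^ N with hY
    have hYn : ‖Y‖ ≤ ‖t‖ ^ N := by
      rw [hY, norm_mul, norm_mul, norm_pow, norm_mul, hε, Complex.norm_real,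
        Real.norm_of_nonneg hc, mul_one, mul_pow]
      have h1 : ‖k‖ ^ N ≤ 1 := pow_le_one₀ (norm_nonneg _) hk1
      have h2 : 0 ≤ ‖t‖ ^ N := by positivity
      have h3 : 0 ≤ ‖k‖ ^ N := by positivity
      calc c * (‖t‖ ^ N * ‖k‖ ^ N) ≤ 1 * (‖t‖ ^ N * 1) := by
            apply mul_le_mul hc1 _ (by positivity) zero_le_one
            exact mul_le_mul_of_nonneg_left h1 h2
        _ = ‖t‖ ^ N := by ring
    have htN : ‖t‖ ^ N ≤ ‖t‖ := by
      calc ‖t‖ ^ N ≤ ‖t‖ ^ 1 := pow_le_pow_of_le_one (norm_nonneg _) (by linarith) hN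
        _ = ‖t‖ := pow_one _
    have hY2 : ‖Y‖ ≤ 1 / 2 := hYn.trans (htN.trans ht'.le)
    have hden : 1 / 2 ≤ ‖1 - Y‖ := by
      have := norm_sub_norm_le (1 : ℂ) Y
      rw [norm_one] at this
      linarith
    have hne : 1 - Y ≠ 0 := by
      intro h0; rw [h0, norm_zero] at hden; linarith
    have hFt : F t = ((1 + Y) * (1 - Y)⁻¹) • (t • z) +
        (ε * B * (t * k) ^ (N + 1) * ((1 - Y) ^ 2)⁻¹) • e₂ := by
      have h1 : innerSL ℂ e₁ (t • z) = t * k := by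
        rw [map_smul, innerSL_apply_apply, ← hk, smul_eq_mul]
      simp only [hF, fam, h1, ← hY]
    have hsplit : F t - t ^ 1 • z - t ^ (N + 1) • v =
        (t * (2 * Y ^ 2) * (1 - Y)⁻¹) • z +
          (ε * B * (t * k) ^ (N + 1) * (Y * (2 - Y)) * ((1 - Y) ^ 2)⁻¹) • e₂ := by
      have h1 : ((1 + Y) * (1 - Y)⁻¹) * t - t - t ^ (N + 1) * (2 * c * ε * k ^ N) =
          t * (2 * Y ^ 2) * (1 - Y)⁻¹ := by
        have h2 : t ^ (N + 1) * (2 * c * ε * k ^ N) = 2 * t * Y := by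
          rw [hY]; ring
        rw [h2]
        field_simp
        ring
      have h3 : ε * B * (t * k) ^ (N + 1) * ((1 - Y) ^ 2)⁻¹ - t ^ (N + 1) * (ε * B * k ^ (N + 1)) =
          ε * B * (t * k) ^ (N + 1) * (Y * (2 - Y)) * ((1 - Y) ^ 2)⁻¹ := by
        have h4 : t ^ (N + 1) * (ε * B * k ^ (N + 1)) = ε * B * (t * k) ^ (N + 1) := by ring
        rw [h4]
        field_simp
        ring
      rw [hFt, ← h1, ← h3, hv, pow_one]
      module
    rw [hsplit]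
    have hi1 : ‖(1 - Y)⁻¹‖ ≤ 2 := by
      rw [norm_inv]
      calc ‖1 - Y‖⁻¹ ≤ (1 / 2)⁻¹ := inv_anti₀ (by norm_num) hden
        _ = 2 := by norm_num
    have hi2 : ‖((1 - Y) ^ 2)⁻¹‖ ≤ 4 := by
      rw [norm_inv, norm_pow]
      calc (‖1 - Y‖ ^ 2)⁻¹ ≤ ((1 / 2) ^ 2)⁻¹ :=
            inv_anti₀ (by norm_num) (pow_le_pow_left₀ (by norm_num) hden 2)
        _ = 4 := by norm_num
    have hYY : ‖Y‖ ^ 2 ≤ ‖t‖ ^ (N + 1) := by
      calc ‖Y‖ ^ 2 ≤ (‖t‖ ^ N) ^ 2 := pow_le_pow_left₀ (norm_nonneg _) hYn 2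
        _ = ‖t‖ ^ (N * 2) := by rw [pow_mul]
        _ ≤ ‖t‖ ^ (N + 1) := pow_le_pow_of_le_one (norm_nonneg _) (by linarith) (by omega)
    have t1 : ‖(t * (2 * Y ^ 2) * (1 - Y)⁻¹) • z‖ ≤ 4 * ‖t‖ ^ (N + 1 + 1) := by
      rw [norm_smul, hz, mul_one, norm_mul, norm_mul, norm_mul, norm_pow]
      have h2 : ‖(2 : ℂ)‖ = 2 := by simp
      rw [h2]
      calc ‖t‖ * (2 * ‖Y‖ ^ 2) * ‖(1 - Y)⁻¹‖ ≤ ‖t‖ * (2 * ‖t‖ ^ (N + 1)) * 2 := by
            apply mul_le_mul _ hi1 (norm_nonneg _) (by positivity)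
            apply mul_le_mul_of_nonneg_left _ (norm_nonneg _)
            linarith
        _ = 4 * ‖t‖ ^ (N + 1 + 1) := by rw [pow_succ ‖t‖ (N + 1)]; ring
    have t2 : ‖(ε * B * (t * k) ^ (N + 1) * (Y * (2 - Y)) * ((1 - Y) ^ 2)⁻¹) • e₂‖ ≤
        12 * B * ‖t‖ ^ (N + 1 + 1) := by
      rw [norm_smul, norm_mul, norm_mul, norm_mul, norm_mul, norm_mul, norm_pow, norm_mul, hε,
        one_mul, Complex.norm_real, Real.norm_of_nonneg hB]
      have h3 : ‖2 - Y‖ ≤ 3 := by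
        calc ‖2 - Y‖ ≤ ‖(2 : ℂ)‖ + ‖Y‖ := norm_sub_le _ _
          _ ≤ 2 + 1 := by
            have : ‖(2 : ℂ)‖ = 2 := by simp
            rw [this]; linarith
          _ = 3 := by norm_num
      have h4 : (‖t‖ * ‖k‖) ^ (N + 1) ≤ ‖t‖ ^ (N + 1) := by
        apply pow_le_pow_left₀ (by positivity)
        exact mul_le_of_le_one_right (norm_nonneg _) hk1
      have h5 : ‖Y‖ * ‖2 - Y‖ ≤ ‖t‖ * 3 :=
        mul_le_mul (hYn.trans htN) h3 (norm_nonneg _) (norm_nonneg _)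
      calc B * (‖t‖ * ‖k‖) ^ (N + 1) * (‖Y‖ * ‖2 - Y‖) * ‖((1 - Y) ^ 2)⁻¹‖ * ‖e₂‖
          ≤ B * ‖t‖ ^ (N + 1) * (‖t‖ * 3) * 4 * 1 := by
            apply mul_le_mul _ he₂ (norm_nonneg _) (by positivity)
            apply mul_le_mul _ hi2 (norm_nonneg _) (by positivity)
            apply mul_le_mul _ h5 (by positivity) (by positivity)
            exact mul_le_mul_of_nonneg_left h4 hB
        _ = 12 * B * ‖t‖ ^ (N + 1 + 1) := by rw [pow_succ ‖t‖ (N + 1)]; ring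
    calc _ ≤ _ := norm_add_le _ _
      _ ≤ 4 * ‖t‖ ^ (N + 1 + 1) + 12 * B * ‖t‖ ^ (N + 1 + 1) := add_le_add t1 t2
      _ = _ := by ring
  have cdF : ContDiffAt ℂ (N + 1 : ℕ) F 0 := contDiffAt_of_ball one_pos hFd (N + 1)
  have h3 : tc (N + 1) (fun t => F t - t ^ 1 • z - t ^ (N + 1) • v) = 0 := by
    apply tc_eq_zero_of_bound (N + 1) (R := 1 / 2) (by norm_num) _ hbound
    exact ((hFd.mono hsub).sub (by fun_prop)).sub (by fun_prop)
  rw [tc_sub (N + 1) (cdF.sub (by fun_prop)) (by fun_prop), tc_sub (N + 1) cdF (by fun_prop),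
    tc_pow_smul, tc_pow_smul, if_pos rfl, if_neg (by omega), sub_zero, sub_eq_zero] at h3
  exact h3

end Coef

end Pool.Agent.Y952.Cara
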