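import Mathlib
import Pool.Agent.Y952.CaraMain

/-!
The exact set of values `P_m(z)` over the Caratheodory family: sufficiency.
-/

set_option autoImplicit false

namespace Pool.Agent.Y952.Cara

open Metric Set Filter Topology Pool.Agent.Helper540

variable {E : Type*} [NormedAddCommGroup E] [InnerProductSpace ℂ E]

theorem norm_sq_comb {z u : E} (hz : ‖z‖ = 1) (hu : ‖u‖ = 1) (hzu : inner ℂ z u = 0) (a b : ℝ) :
    ‖(a : ℂ) • z + (b : ℂ) • u‖ ^ 2 = a ^ 2 + b ^ 2 := by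
  have h1 := norm_add_sq (𝕜 := ℂ) ((a : ℂ) • z) ((b : ℂ) • u)
  rw [inner_smul_left, inner_smul_right, hzu, norm_smul, norm_smul, hz, hu] at h1
  simpa using h1

theorem inner_comb {z u : E} (hz : ‖z‖ = 1) (hu : ‖u‖ = 1) (hzu : inner ℂ z u = 0)
    (a b a' b' : ℝ) :
    inner ℂ ((a : ℂ) • z + (b : ℂ) • u) ((a' : ℂ) • z + (b' : ℂ) • u) =
      ((a * a' + b * b' : ℝ) : ℂ) := by
  have huz : inner ℂ u z = 0 := by rw [← inner_conj_symm, hzu]; simp
  rw [inner_add_left, inner_add_right, inner_add_right, inner_smul_left, inner_smul_left,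
    inner_smul_left, inner_smul_left, inner_smul_right, inner_smul_right, inner_smul_right,
    inner_smul_right, hzu, huz, inner_self_eq_norm_sq_to_K, inner_self_eq_norm_sq_to_K, hz, hu]
  simp

variable [CompleteSpace E]

theorem point_one {m : ℕ} (hm : 2 ≤ m) {z : E} (hz : ‖z‖ = 1) {ε : ℂ} (hε : ‖ε‖ = 1) :
    (ε * 2) • z ∈ vals m z := by
  obtain ⟨N, rfl⟩ : ∃ N, m = N + 1 := ⟨m - 1, by omega⟩
  have hN : 1 ≤ N := by omega
  have hcB : ∀ s : ℝ, 0 ≤ s → s ≤ 1 →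
      (0 : ℝ) ^ 2 * (s ^ (N + 1) * (1 - s)) ≤ (1 - (1 : ℝ) ^ 2 * s ^ N) ^ 2 := by
    intro s _ _
    simp only [ne_eq, OfNat.ofNat_ne_zero, not_false_eq_true, zero_pow, zero_mul]
    positivity
  have h1 : fam N z (0 : E) 1 0 ε ∈ caraFamily E :=
    fam_mem hN hz (by simp) (by simp) zero_le_one le_rfl hε le_rfl hcB
  refine ⟨_, h1, ?_⟩
  simp only
  rw [fam_homPart hN hz (by simp) zero_le_one le_rfl hε le_rfl hz h1, inner_self_eq_norm_sq_to_K, hz]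
  simp
  ring_nf

/-- The extreme points of the region are attained. -/
theorem point {m : ℕ} (hm : 2 ≤ m) {z u : E} (hz : ‖z‖ = 1) (hu : ‖u‖ = 1)
    (hzu : inner ℂ z u = 0) {ε : ℂ} (hε : ‖ε‖ = 1) {g : ℝ} (hg : g ∈ Icc (0 : ℝ) 1) :
    (ε * bdA m g) • z + (ε * bdB m g) • u ∈ vals m z := by
  rcases hg.2.eq_or_lt with hg1 | hg1
  · subst hg1
    rw [bdA_one hm, bdB_one]
    simpa using point_one hm hz hε
  have hg0 := hg.1
  have hm' : (2 : ℝ) ≤ m := by exact_mod_cast hm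
  have hρ := rad_pos hm hg
  have hρ2 := rad_sq_mul hm hg
  have hD := dd_pos hm hg
  have hM := mm_pos (g := g) hm
  have hτ1 : g ^ 2 < 1 := pow_lt_one₀ hg0 hg1 two_ne_zero
  have hτ0 : 0 ≤ g ^ 2 := sq_nonneg g
  have hA : bdA m g = g * (1 - g ^ 2 + 2 * rad m g ^ 2) / rad m g ^ (m + 1) := rfl
  have hBd : bdB m g = ss m g / rad m g ^ (m + 1) := rfl
  have hS2 := ss_sq hm hg
  have hS0 := ss_nonneg (m := m) (g := g)
  have hDM : dd m g = (m + (m - 2) * g ^ 2) + 1 - g ^ 2 := by unfold dd; ring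
  set ρ := rad m g with hρd
  set D := dd m g with hDd
  set S := ss m g with hSd
  set M : ℝ := m + (m - 2) * g ^ 2 with hMd
  set τ : ℝ := g ^ 2 with hτ
  clear_value ρ D S
  obtain ⟨r, hr0, hr2⟩ : ∃ r : ℝ, 0 < r ∧ r ^ 2 = M / D :=
    ⟨Real.sqrt (M / D), Real.sqrt_pos.2 (by positivity), Real.sq_sqrt (by positivity)⟩
  obtain ⟨s, hs0, hs2⟩ : ∃ s : ℝ, 0 < s ∧ s ^ 2 = (1 - τ) / D :=
    ⟨Real.sqrt ((1 - τ) / D), Real.sqrt_pos.2 (div_pos (by linarith) hD),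
      Real.sq_sqrt (div_nonneg (by linarith) hD.le)⟩
  have hρr : ρ ^ 2 = r ^ 2 + τ * s ^ 2 := by
    have h1 : ρ ^ 2 * D = (r ^ 2 + τ * s ^ 2) * D := by
      rw [hρ2, hr2, hs2]
      field_simp
      rw [hMd]
      ring
    exact mul_right_cancel₀ hD.ne' h1
  have hSs : S * s = (1 - τ) * r := by
    have h1 : (S * s) ^ 2 = ((1 - τ) * r) ^ 2 := by
      rw [mul_pow, mul_pow, hS2, hs2, hr2]
      field_simp
    exact (pow_left_inj₀ (by positivity) (mul_nonneg (by linarith) hr0.le) two_ne_zero).1 h1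
  obtain ⟨N, rfl⟩ : ∃ N, m = N + 1 := ⟨m - 1, by omega⟩
  have hN : 1 ≤ N := by omega
  have hN' : (1 : ℝ) ≤ N := by exact_mod_cast hN
  have hM' : M = (N : ℝ) + 1 + (N - 1) * τ := by rw [hMd]; push_cast; ring
  set c : ℝ := g / r ^ N with hc
  set B : ℝ := (1 - τ) / (r ^ (N + 1) * s) with hB
  have hc0 : 0 ≤ c := by positivity
  have hB0 : 0 ≤ B := div_nonneg (by linarith) (by positivity)
  have hrN : (r ^ N) ^ 2 = (M / D) ^ N := by rw [← hr2, ← pow_mul, ← pow_mul, mul_comm]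
  have hrN1 : (r ^ (N + 1)) ^ 2 = (M / D) ^ (N + 1) := by
    rw [← hr2, ← pow_mul, ← pow_mul, mul_comm]
  have hc2 : c ^ 2 = τ / (M / D) ^ N := by rw [hc, div_pow, hrN]
  have hc1 : c ≤ 1 := by
    have h1 : τ ≤ (M / D) ^ N := by
      have h2 := one_add_mul_le_pow (a := M / D - 1) (by
        have : 0 < M / D := by positivity
        linarith) N
      have h3 : 1 + (M / D - 1) = M / D := by ring
      rw [h3] at h2
      refine le_trans ?_ h2
      have h4 : M / D - 1 = -((1 - τ) / D) := by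
        rw [div_sub_one hD.ne', ← neg_div, hDM]
        congr 1
        ring
      rw [h4]
      have h5 : (N : ℝ) * ((1 - τ) / D) ≤ 1 - τ := by
        rw [← mul_div_assoc, div_le_iff₀ hD, hDM, hM']
        nlinarith [mul_nonneg (sub_nonneg.2 hN') hτ0]
      linarith
    have h2 : c ^ 2 ≤ 1 := by
      rw [hc2, div_le_one (by positivity)]
      exact h1
    nlinarith
  have hcB : ∀ σ : ℝ, 0 ≤ σ → σ ≤ 1 →
      B ^ 2 * (σ ^ (N + 1) * (1 - σ)) ≤ (1 - c ^ 2 * σ ^ N) ^ 2 := by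
    intro σ hσ _
    have h1 := core hN hτ0 hτ1.le hM' hDM (σ := σ / (M / D)) (by positivity)
    have h2 : B ^ 2 * (σ ^ (N + 1) * (1 - σ)) =
        (1 - τ) * ((σ / (M / D)) ^ (N + 1) * (D - M * (σ / (M / D)))) := by
      rw [hB, div_pow, mul_pow, hrN1, hs2, div_pow σ]
      have h3 : D - M * (σ / (M / D)) = D * (1 - σ) := by field_simp
      have h4 : (1 : ℝ) - τ ≠ 0 := by linarith
      rw [h3]
      field_simp
    have h3 : c ^ 2 * σ ^ N = τ * (σ / (M / D)) ^ N := by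
      rw [hc2, div_pow σ, div_mul_eq_mul_div, mul_div_assoc]
    rw [h2, h3]
    exact h1
  -- the frame
  set e₁ : E := ((r / ρ : ℝ) : ℂ) • z + ((-(g * s / ρ) : ℝ) : ℂ) • u with he₁
  set e₂ : E := ((g * s / ρ : ℝ) : ℂ) • z + ((r / ρ : ℝ) : ℂ) • u with he₂
  have hn : (r / ρ) ^ 2 + (g * s / ρ) ^ 2 = 1 := by
    have : (r / ρ) ^ 2 + (g * s / ρ) ^ 2 = (r ^ 2 + τ * s ^ 2) / ρ ^ 2 := by
      rw [hτ]; field_simp
    rw [this, ← hρr, div_self (by positivity)]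
  have hn1 : ‖e₁‖ = 1 := by
    have h1 := norm_sq_comb hz hu hzu (r / ρ) (-(g * s / ρ))
    rw [← he₁, neg_sq, hn] at h1
    exact (pow_eq_one_iff_of_nonneg (norm_nonneg _) two_ne_zero).1 h1
  have hn2 : ‖e₂‖ = 1 := by
    have h1 := norm_sq_comb hz hu hzu (g * s / ρ) (r / ρ)
    rw [← he₂, add_comm, hn] at h1
    exact (pow_eq_one_iff_of_nonneg (norm_nonneg _) two_ne_zero).1 h1
  have h12 : inner ℂ e₁ e₂ = 0 := by
    rw [he₁, he₂, inner_comb hz hu hzu]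
    have : r / ρ * (g * s / ρ) + -(g * s / ρ) * (r / ρ) = 0 := by ring
    rw [this]; simp
  have h1z : inner ℂ e₁ z = ((r / ρ : ℝ) : ℂ) := by
    have h1 := inner_comb hz hu hzu (r / ρ) (-(g * s / ρ)) 1 0
    rw [← he₁] at h1
    simpa using h1
  have hmem : fam N e₁ e₂ c B ε ∈ caraFamily E :=
    fam_mem hN hn1 hn2.le h12 hc0 hc1 hε hB0 hcB
  refine ⟨_, hmem, ?_⟩
  simp only
  rw [fam_homPart hN hn1 hn2.le hc0 hc1 hε hB0 hz hmem, h1z]
  have hrρ : r ≠ 0 := hr0.ne'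
  have k1 : 2 * c * (r / ρ) ^ N + B * (r / ρ) ^ (N + 1) * (g * s / ρ) =
      g * (1 - τ + 2 * ρ ^ 2) / ρ ^ (N + 1 + 1) := by
    rw [hc, hB, div_pow, div_pow, pow_succ ρ (N + 1), pow_succ ρ N, pow_succ r N]
    field_simp
    ring
  have k2 : B * (r / ρ) ^ (N + 1) * (r / ρ) = S / ρ ^ (N + 1 + 1) := by
    have h5 : S = (1 - τ) * r / s := by rw [← hSs]; field_simp
    rw [hB, div_pow, h5, pow_succ ρ (N + 1)]
    field_simp
  rw [hA, hBd, ← k1, ← k2, he₂]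
  push_cast
  module

theorem exists_weight {x A : ℝ} (hx : 0 ≤ x) (hxA : x ≤ A) :
    ∃ l : ℝ, 0 ≤ l ∧ l ≤ 1 ∧ l * A + (1 - l) * (-A) = x := by
  rcases (hx.trans hxA).eq_or_lt with h0 | h0
  · refine ⟨1, zero_le_one, le_rfl, ?_⟩
    linarith
  · refine ⟨(1 + x / A) / 2, by positivity, ?_, ?_⟩
    · have : x / A ≤ 1 := (div_le_one h0).2 hxA
      linarith
    · field_simp
      ring

/-- Sufficiency. -/
theorem mem_vals {m : ℕ} (hm : 2 ≤ m) {z : E} (hz : ‖z‖ = 1)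
    (hE : ∃ u : E, ‖u‖ = 1 ∧ inner ℂ z u = 0) {g : ℝ} (hg : g ∈ Icc (0 : ℝ) 1) {v : E}
    (h1 : ‖inner ℂ z v‖ ≤ bdA m g) (h2 : ‖v - (inner ℂ z v) • z‖ ≤ bdB m g) : v ∈ vals m z := by
  obtain ⟨u', hu', hzu'⟩ := hE
  set α : ℂ := inner ℂ z v with hα
  set w : E := v - α • z with hw
  have hzw : inner ℂ z w = 0 := by
    rw [hw, inner_sub_right, inner_smul_right, inner_self_eq_norm_sq_to_K, hz, ← hα]
    simp
  obtain ⟨u, hu, hzu, hwu⟩ : ∃ u : E, ‖u‖ = 1 ∧ inner ℂ z u = 0 ∧ w = ((‖w‖ : ℝ) : ℂ) • u := by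
    rcases eq_or_ne w 0 with h0 | h0
    · exact ⟨u', hu', hzu', by rw [h0]; simp⟩
    · have h3 : ((‖w‖ : ℝ) : ℂ) ≠ 0 := by exact_mod_cast (norm_pos_iff.2 h0).ne'
      refine ⟨((‖w‖ : ℝ) : ℂ)⁻¹ • w, ?_, ?_, ?_⟩
      · rw [norm_smul, norm_inv, Complex.norm_real, norm_norm,
          inv_mul_cancel₀ (norm_pos_iff.2 h0).ne']
      · rw [inner_smul_right, hzw, mul_zero]
      · rw [smul_smul, mul_inv_cancel₀ h3, one_smul]
  obtain ⟨η, hη, hαη⟩ : ∃ η : ℂ, ‖η‖ = 1 ∧ α = ((‖α‖ : ℝ) : ℂ) * η := by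
    rcases eq_or_ne α 0 with h0 | h0
    · exact ⟨1, by simp, by rw [h0]; simp⟩
    · have h3 : ((‖α‖ : ℝ) : ℂ) ≠ 0 := by exact_mod_cast (norm_pos_iff.2 h0).ne'
      refine ⟨α / ((‖α‖ : ℝ) : ℂ), ?_, ?_⟩
      · rw [norm_div, Complex.norm_real, norm_norm, div_self (norm_pos_iff.2 h0).ne']
      · field_simp
  have hη0 : η ≠ 0 := by
    intro h0; rw [h0, norm_zero] at hη; norm_num at hη
  have hvd : v = α • z + ((‖w‖ : ℝ) : ℂ) • u := by rw [← hwu, hw]; abel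
  obtain ⟨l, hl0, hl1, hl⟩ := exists_weight (norm_nonneg α) h1
  obtain ⟨k, hk0, hk1, hk⟩ := exists_weight (norm_nonneg w) h2
  -- the four points
  have pt : ∀ (δ δ' : ℂ), δ * δ = 1 → δ' * δ' = 1 →
      (δ * η * bdA m g) • z + (δ' * bdB m g) • u ∈ vals m z := by
    intro δ δ' hδ hδ'
    have n1 : ‖δ‖ = 1 := by
      have : ‖δ‖ * ‖δ‖ = 1 := by rw [← norm_mul, hδ, norm_one]
      nlinarith [norm_nonneg δ]
    have n2 : ‖δ'‖ = 1 := by
      have : ‖δ'‖ * ‖δ'‖ = 1 := by rw [← norm_mul, hδ', norm_one]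
      nlinarith [norm_nonneg δ']
    have hδ0 : δ ≠ 0 := by intro h0; rw [h0] at hδ; simp at hδ
    have h5 := point (u := (δ' * (δ * η)⁻¹) • u) (ε := δ * η) hm hz
      (by rw [norm_smul, norm_mul, norm_inv, norm_mul, n1, n2, hη, hu]; norm_num)
      (by rw [inner_smul_right, hzu, mul_zero]) (by rw [norm_mul, n1, hη]; norm_num) hg
    rw [smul_smul] at h5
    have h6 : δ * η * (bdB m g : ℂ) * (δ' * (δ * η)⁻¹) = δ' * bdB m g := by
      field_simp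
    rw [h6] at h5
    exact h5
  have p1 := pt 1 1 (by norm_num) (by norm_num)
  have p2 := pt 1 (-1) (by norm_num) (by norm_num)
  have p3 := pt (-1) 1 (by norm_num) (by norm_num)
  have p4 := pt (-1) (-1) (by norm_num) (by norm_num)
  have q1 := conv_vals hz p1 p3 hl0 (sub_nonneg.2 hl1) (by ring)
  have q2 := conv_vals hz p2 p4 hl0 (sub_nonneg.2 hl1) (by ring)
  have q3 := conv_vals hz q1 q2 hk0 (sub_nonneg.2 hk1) (by ring)
  have hlc : (l : ℂ) * bdA m g + (1 - l) * (-bdA m g) = ((‖α‖ : ℝ) : ℂ) := by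
    rw [← hl]; push_cast; ring
  have hkc : (k : ℂ) * bdB m g + (1 - k) * (-bdB m g) = ((‖w‖ : ℝ) : ℂ) := by
    rw [← hk]; push_cast; ring
  rw [hvd, hαη, ← hlc, ← hkc]
  convert q3 using 1
  push_cast
  module

end Pool.Agent.Y952.Cara
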